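import Pool.Agent.Lib.AB79.Main2
import Pool.Agent.Lib.AB79.B_PS
import Pool.Agent.Lib.AB79.B_APGEO
import Pool.Agent.Lib.AB79.B_CA
import Pool.Agent.Lib.AB79.B_CH
import Pool.Agent.Lib.AB79.Can79
import Pool.Agent.Lib.AB79.B_CG
import Pool.Agent.Lib.AB79.B_SERV
import Pool.Agent.Lib.AB79.B_GRCODE
import Pool.Agent.Lib.AB79.B_W
import Pool.Agent.Lib.AB79.B_E
import Pool.Agent.Lib.AB79.B_TRTY

set_option autoImplicit false

namespace Pool.Agent.Results.MP_8ba857_gt.PolynomialDistortion

open Pool.Agent.Lib.AB79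

/-- Bounded subsets of Alexandrov spaces of curvature at least -1 and dimension at most n embed
in Euclidean space with distortion polynomial in n and linear in the diameter. -/
theorem result :
    ∀ (D : ℝ), 0 < D → ∀ n : ℕ, 1 ≤ n → ∃ N : ℕ,
      (N : ℝ) ≤ (1 + D) * ((n : ℝ) + 1) ^ (300 * n) ∧
      ∀ (X : Type) [MetricSpace X] [CompleteSpace X],
        (∀ x y : X, ∀ ε : ℝ, 0 < ε → ∃ z : X,
            dist x z ≤ dist x y / 2 + ε ∧ dist z y ≤ dist x y / 2 + ε) →
        dimH (Set.univ : Set X) ≤ (n : ENNReal) →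
        (∀ p a b c : X, p ≠ a → p ≠ b → p ≠ c →
            Real.arccos ((Real.cosh (dist p a) * Real.cosh (dist p b) - Real.cosh (dist a b)) /
                (Real.sinh (dist p a) * Real.sinh (dist p b)))
            + Real.arccos ((Real.cosh (dist p b) * Real.cosh (dist p c) - Real.cosh (dist b c)) /
                (Real.sinh (dist p b) * Real.sinh (dist p c)))
            + Real.arccos ((Real.cosh (dist p c) * Real.cosh (dist p a) - Real.cosh (dist c a)) /
                (Real.sinh (dist p c) * Real.sinh (dist p a)))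
            ≤ 2 * Real.pi) →
        ∀ A : Set X, Bornology.IsBounded A → Metric.diam A ≤ D →
          ∃ f : X → EuclideanSpace ℝ (Fin N), ∃ r : ℝ, 0 < r ∧
            ∀ x ∈ A, ∀ y ∈ A,
              r * dist x y ≤ dist (f x) (f y) ∧
              dist (f x) (f y) ≤
                10 ^ 10 * (1 + D) * (n * √n) * Real.log (n + 1) * r * dist x y :=
  fun D hD n hn => main st_PS st_AP st_GEO (st_CH st_CA) st_CAN' (st_CMP st_CA) (st_GAIN st_CA)
    st_SERV st_CODE (st_W st_GR) st_E st_TR st_TY D hD n hn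

end Pool.Agent.Results.MP_8ba857_gt.PolynomialDistortion
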